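import Pool.Agent.R386.RP.Fin
import Pool.Agent.R386.TC.Grp
import Pool.Agent.R386.TC.Top

/-!
# Virtual characters which vanish at the complex conjugations
-/

set_option autoImplicit false
set_option linter.unusedSectionVars false

namespace Pool.Agent.R409.TC

open Pool.Agent.R386.RP (ex rs ind permf stb Opn)
open Pool.Agent.R433.MD (fx)

section
variable {G : Type} [Group G]

/-- induction to the whole group -/
noncomputable def up (H : Subgroup G) (f : G → ℂ) (g : G) : ℂ :=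
  ∑ᶠ x : G ⧸ H, f ((x.out : G)⁻¹ * g * x.out)

lemma up_trans {H K : Subgroup G} (hHK : H ≤ K) [Finite (G ⧸ H)] [Finite (G ⧸ K)] (f : G → ℂ)
    (hf : ∀ h ∈ H, ∀ g, f (h⁻¹ * g * h) = f g) : up K (ind H K f) = up H f := by
  classical
  funext g
  let e := Subgroup.quotientEquivProdOfLE' hHK Quotient.out (fun x => Quotient.out_eq' x)
  haveI : Finite ((G ⧸ K) × (K ⧸ H.subgroupOf K)) := Finite.of_equiv _ e
  haveI : Nonempty (G ⧸ K) := ⟨((1 : G) : G ⧸ K)⟩
  haveI : Finite (K ⧸ H.subgroupOf K) := Finite.prod_right (G ⧸ K)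
  letI := Fintype.ofFinite (G ⧸ K)
  letI := Fintype.ofFinite (K ⧸ H.subgroupOf K)
  have h1 : up H f g = ∑ᶠ p : (G ⧸ K) × (K ⧸ H.subgroupOf K),
      f (((e.symm p).out)⁻¹ * g * (e.symm p).out) := by
    unfold up
    exact (finsum_comp_equiv e.symm).symm
  rw [h1, finsum_eq_sum_of_fintype, Fintype.sum_prod_type]
  unfold up
  rw [finsum_eq_sum_of_fintype]
  refine Finset.sum_congr rfl fun x _ => ?_
  unfold ind
  rw [finsum_eq_sum_of_fintype]
  refine Finset.sum_congr rfl fun y _ => ?_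
  have h2 : e.symm (x, y) = ((x.out * ((y.out : K) : G) : G) : G ⧸ H) := by
    have hy : y = Quotient.mk'' (y.out) := (Quotient.out_eq' y).symm
    conv_lhs => rw [hy]
    rfl
  have h3 : (x.out * ((y.out : K) : G))⁻¹ * (e.symm (x, y)).out ∈ H := by
    refine QuotientGroup.eq.1 ?_
    rw [← h2]
    exact (Quotient.out_eq' _).symm
  have h4 := hf _ h3 ((x.out * ((y.out : K) : G))⁻¹ * g * (x.out * ((y.out : K) : G)))
  have e1 : ((y.out : K) : G)⁻¹ * (x.out⁻¹ * g * x.out) * ((y.out : K) : G) =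
      (x.out * ((y.out : K) : G))⁻¹ * g * (x.out * ((y.out : K) : G)) := by group
  rw [e1, ← h4]
  congr 1
  group

lemma up_add {H : Subgroup G} [Finite (G ⧸ H)] (f f' : G → ℂ) : up H (f + f') = up H f + up H f' := by
  letI := Fintype.ofFinite (G ⧸ H)
  funext g
  simp only [up, Pi.add_apply, finsum_eq_sum_of_fintype, Finset.sum_add_distrib]

lemma up_sum {H : Subgroup G} [Finite (G ⧸ H)] {ι : Type} (s : Finset ι) (f : ι → G → ℂ) :
    up H (∑ i ∈ s, f i) = ∑ i ∈ s, up H (f i) := by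
  classical
  letI := Fintype.ofFinite (G ⧸ H)
  funext g
  simp only [up, Finset.sum_apply, finsum_eq_sum_of_fintype]
  exact Finset.sum_comm

/-- multiplication with a class function -/
lemma up_mul {H : Subgroup G} [Finite (G ⧸ H)] (a f : G → ℂ) (ha : ∀ x g, a (x⁻¹ * g * x) = a g) :
    (fun g => a g * up H f g) = up H (fun g => a g * f g) := by
  letI := Fintype.ofFinite (G ⧸ H)
  funext g
  simp only [up, finsum_eq_sum_of_fintype, Finset.mul_sum]
  exact Finset.sum_congr rfl fun x _ => by rw [ha]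

/-- the virtual characters, `P`: which subgroups are allowed -/
def VC [TopologicalSpace G] (P : Subgroup G → Prop) : AddSubgroup (G → ℂ) :=
  AddSubgroup.closure {f | ∃ (H : Subgroup G) (ψ : H →* ℂˣ), IsOpen (H : Set G) ∧ P H ∧ Opn ψ ∧
    f = up H (ex ψ)}

end

section
variable {G : Type} [Group G] [TopologicalSpace G] [IsTopologicalGroup G] [CompactSpace G]

lemma fin_quot {H : Subgroup G} (hH : IsOpen (H : Set G)) : Finite (G ⧸ H) :=
  Subgroup.quotient_finite_of_isOpen H hH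

open Classical in
/-- product of a permutation character and an induced linear character -/
lemma fx_up {N : Subgroup G} [N.Normal] (hN : IsOpen (N : Set G)) (H : Subgroup (G ⧸ N))
    {K : Subgroup G} (hK : IsOpen (K : Set G)) {ψ : K →* ℂˣ} (hψ : Opn ψ) (P : Subgroup G → Prop)
    (hP : ∀ (x : G) (L : Subgroup G), (∀ g ∈ L, ((x⁻¹ * g * x : G) : G ⧸ N) ∈ H) → P L) :
    (fun g : G => ((fx H (g : G ⧸ N) : ℤ) : ℂ) * up K (ex ψ) g) ∈ VC P := by
  haveI := fin_quot hN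
  haveI := fin_quot hK
  letI : MulAction K ((G ⧸ N) ⧸ H) := MulAction.compHom _ ((QuotientGroup.mk' N).comp K.subtype)
  haveI : Finite ((G ⧸ N) ⧸ H) := inferInstance
  letI : Fintype ((G ⧸ N) ⧸ H) := Fintype.ofFinite _
  have hsm : ∀ (k : K) (y : (G ⧸ N) ⧸ H), k • y = ((k : G) : G ⧸ N) • y := fun _ _ => rfl
  -- class function
  have hk : ∀ (x g : G) (y : (G ⧸ N) ⧸ H), ((x⁻¹ * g * x : G) : G ⧸ N) • y = y ↔
      (g : G ⧸ N) • ((x : G ⧸ N) • y) = (x : G ⧸ N) • y := by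
    intro x g y
    rw [QuotientGroup.mk_mul, QuotientGroup.mk_mul, QuotientGroup.mk_inv, mul_smul, mul_smul,
      inv_smul_eq_iff]
  have hcl : ∀ x g : G, ((fx H ((x⁻¹ * g * x : G) : G ⧸ N) : ℤ) : ℂ) = ((fx H (g : G ⧸ N) : ℤ) : ℂ) := by
    intro x g
    congr 1
    unfold fx
    congr 1
    refine Nat.card_congr
      { toFun := fun y => ⟨(x : G ⧸ N) • y.1, (hk x g y.1).1 y.2⟩
        invFun := fun y => ⟨(x : G ⧸ N)⁻¹ • y.1, (hk x g _).2 (by
          rw [smul_inv_smul]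
          exact y.2)⟩
        left_inv := fun y => Subtype.ext (by simp)
        right_inv := fun y => Subtype.ext (by simp) }
  rw [up_mul _ _ hcl]
  have h1 : (fun g : G => ((fx H (g : G ⧸ N) : ℤ) : ℂ) * ex ψ g) = permf ((G ⧸ N) ⧸ H) ψ := by
    funext g
    unfold permf
    by_cases hg : g ∈ K
    · rw [dif_pos hg, Pool.Agent.R386.RP.ex_of_mem ψ hg]
      have h9 : ∀ z : ℂ, (∑ x : (G ⧸ N) ⧸ H, (if (g : G ⧸ N) • x = x then z else 0)) =
          ((fx H (g : G ⧸ N) : ℤ) : ℂ) * z := by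
        intro z
        rw [← Finset.sum_filter, Finset.sum_const, nsmul_eq_mul]
        congr 1
        unfold fx
        rw [Nat.card_eq_fintype_card, Fintype.card_subtype]
        push_cast
        rfl
      rw [← h9]
      refine Finset.sum_congr rfl fun x _ => ?_
      by_cases hx : (g : G ⧸ N) • x = x
      · rw [if_pos hx, if_pos (show (⟨g, hg⟩ : K) • x = x from hx)]
      · rw [if_neg hx, if_neg (show ¬ (⟨g, hg⟩ : K) • x = x from hx)]
    · rw [dif_neg hg, Pool.Agent.R386.RP.ex_of_not_mem ψ hg, mul_zero]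
  rw [h1, Pool.Agent.R386.RP.permf_eq, up_sum]
  refine sum_mem fun ω _ => ?_
  have hopen : IsOpen ((stb (K := K) ω.out : Subgroup G) : Set G) := by
    refine Pool.Agent.R386.RP.isOpen_stb hK hN (fun k hk y => ?_) ω.out
    rw [hsm, (QuotientGroup.eq_one_iff (k : G)).2 hk, one_smul]
  haveI := fin_quot hopen
  rw [up_trans (Pool.Agent.R386.RP.stb_le ω.out) _ (fun h hh g => Pool.Agent.R386.RP.ex_conj _ hh g)]
  refine AddSubgroup.subset_closure ⟨_, _, hopen, ?_, hψ.rs _ _, rfl⟩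
  obtain ⟨z, hz⟩ := QuotientGroup.mk_surjective (ω.out)
  obtain ⟨x, hx⟩ := QuotientGroup.mk_surjective z
  refine hP x _ fun g hg => ?_
  obtain ⟨h2, h3⟩ := Pool.Agent.R386.RP.mem_stb.1 hg
  rw [hsm, ← hz, ← hx] at h3
  have h4 : ((((g : G) : G ⧸ N) * (x : G ⧸ N) : G ⧸ N) : (G ⧸ N) ⧸ H) = ((x : G ⧸ N) : (G ⧸ N) ⧸ H) := h3
  rw [QuotientGroup.eq] at h4
  have h5 := H.inv_mem h4
  have e : ((x⁻¹ * g * x : G) : G ⧸ N) = (((g : G ⧸ N) * (x : G ⧸ N))⁻¹ * (x : G ⧸ N))⁻¹ := by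
    rw [QuotientGroup.mk_mul, QuotientGroup.mk_mul, QuotientGroup.mk_inv]
    group
  rw [e]
  exact h5

/-- a virtual character which vanishes where `⟨g⟩ N` meets `C` -/
theorem core_grp (C : Set G) (hC : ∀ c ∈ C, ∀ g : G, g⁻¹ * c * g ∈ C) {N : Subgroup G} [N.Normal]
    (hN : IsOpen (N : Set G)) (f : G → ℂ) (hf : f ∈ VC (G := G) (fun _ => True))
    (hfN : ∀ g, f g ≠ 0 → ∀ n : ℤ, ∀ v ∈ N, g ^ n * v ∉ C) :
    ∃ m : ℕ, m ≠ 0 ∧ m • f ∈ VC (G := G) (fun H => ∀ c ∈ C, c ∉ H) := by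
  classical
  haveI := fin_quot hN
  let 𝓕 : Set (Subgroup (G ⧸ N)) := {H | ∀ c ∈ C, ((c : G) : G ⧸ N) ∉ H}
  have hle : ∀ H ∈ 𝓕, ∀ H' ≤ H, H' ∈ 𝓕 := fun H hH H' h c hc hcH => hH c hc (h hcH)
  have hconj : ∀ H ∈ 𝓕, ∀ x : G ⧸ N, H.map (MulAut.conj x).toMonoidHom ∈ 𝓕 := by
    intro H hH x c hc hcH
    obtain ⟨h, hh, hx⟩ := Subgroup.mem_map.1 hcH
    obtain ⟨y, rfl⟩ := QuotientGroup.mk_surjective x
    refine hH _ (hC c hc y) ?_
    have e : (((y⁻¹ * c * y : G)) : G ⧸ N) = h := by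
      rw [QuotientGroup.mk_mul, QuotientGroup.mk_mul, QuotientGroup.mk_inv, ← hx]
      simp only [MulEquiv.toMonoidHom_eq_coe, MonoidHom.coe_coe, MulAut.conj_apply]
      group
    rw [e]
    exact hh
  let X : Type := {g : G ⧸ N // Subgroup.zpowers g ∈ 𝓕}
  let res : (G ⧸ N → ℤ) →ₗ[ℤ] (X → ℤ) := LinearMap.funLeft ℤ ℤ Subtype.val
  obtain ⟨m, hm, -, a, ha, ham⟩ := Pool.Agent.R433.MD.unit_mem (X := X)
    ((Pool.Agent.R386.TC.SP 𝓕).map res)
    (by
      rintro _ ⟨a, ha, rfl⟩ _ ⟨b, hb, rfl⟩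
      refine ⟨a * b, Pool.Agent.R386.TC.mul_ideal 𝓕 hle hconj ha
        (Pool.Agent.R386.TC.SP_mono (Set.subset_univ _) hb), ?_⟩
      funext x
      rfl) ∅
    (by
      intro x
      refine ⟨res (fx (Subgroup.zpowers x.1)), ⟨_, Pool.Agent.R386.TC.fx_mem x.2, rfl⟩, ?_⟩
      change fx (Subgroup.zpowers x.1) x.1 ≠ 0
      unfold fx
      rw [Nat.cast_ne_zero]
      refine (Nat.card_pos_iff.2 ⟨⟨⟨((1 : G ⧸ N) : (G ⧸ N) ⧸ Subgroup.zpowers x.1), ?_⟩⟩,
        inferInstance⟩).ne'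
      change ((x.1 * 1 : G ⧸ N) : (G ⧸ N) ⧸ Subgroup.zpowers x.1) = _
      rw [QuotientGroup.eq, mul_one, mul_one]
      exact Subgroup.inv_mem _ (Subgroup.mem_zpowers x.1))
    (by
      intro x p hp
      exact absurd hp (Set.notMem_empty p))
  refine ⟨m, hm, ?_⟩
  obtain ⟨n, hn⟩ := Pool.Agent.R386.TC.SP_explicit ha
  letI : Fintype 𝓕 := Fintype.ofFinite _
  have h1 : m • f = fun g : G => ((a (g : G ⧸ N) : ℤ) : ℂ) * f g := by
    funext g
    rw [Pi.smul_apply, nsmul_eq_mul]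
    by_cases h : f g = 0
    · rw [h, mul_zero, mul_zero]
    · have hz : Subgroup.zpowers ((g : G) : G ⧸ N) ∈ 𝓕 := by
        intro c hc hcz
        obtain ⟨k, hk⟩ := Subgroup.mem_zpowers_iff.1 hcz
        rw [← QuotientGroup.mk_zpow] at hk
        have h2 : (g ^ k)⁻¹ * c ∈ N := QuotientGroup.eq.1 hk
        refine hfN g h k _ h2 ?_
        rw [mul_inv_cancel_left]
        exact hc
      have h2 := congrFun ham ⟨(g : G ⧸ N), hz⟩
      have h3 : a (g : G ⧸ N) = (m : ℤ) := h2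
      rw [h3]
      push_cast
      rfl
  rw [h1]
  clear hfN h1
  have key : ∀ f ∈ VC (G := G) (fun _ => True), (fun g : G => ((a (g : G ⧸ N) : ℤ) : ℂ) * f g) ∈
      VC (G := G) (fun H => ∀ c ∈ C, c ∉ H) := by
    intro f hf
    unfold VC at hf
    refine AddSubgroup.closure_induction (p := fun x _ => (fun g : G => ((a (g : G ⧸ N) : ℤ) : ℂ) * x g) ∈
      VC (G := G) (fun H => ∀ c ∈ C, c ∉ H)) ?_ ?_ ?_ ?_ hf
    · rintro x ⟨K, ψ, hK, -, hψ, rfl⟩
      have h2 : (fun g : G => ((a (g : G ⧸ N) : ℤ) : ℂ) * up K (ex ψ) g) =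
          ∑ H : 𝓕, n H • (fun g : G => ((fx H.1 (g : G ⧸ N) : ℤ) : ℂ) * up K (ex ψ) g) := by
        funext g
        rw [hn, finsum_eq_sum_of_fintype, Finset.sum_apply]
        push_cast
        rw [Finset.sum_mul]
        refine Finset.sum_congr rfl fun H _ => ?_
        rw [Pi.smul_apply, zsmul_eq_mul, mul_assoc]
      rw [h2]
      refine sum_mem fun H _ => zsmul_mem (fx_up hN H.1 hK hψ _ ?_) _
      intro x L hL c hc hcL
      exact H.2 _ (hC c hc x) (hL c hcL)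
    · have h2 : (fun g : G => ((a (g : G ⧸ N) : ℤ) : ℂ) * (0 : G → ℂ) g) = 0 := by
        funext g
        simp
      rw [h2]
      exact zero_mem _
    · intro x y _ _ hx hy
      have h2 : (fun g : G => ((a (g : G ⧸ N) : ℤ) : ℂ) * (x + y) g) =
          (fun g : G => ((a (g : G ⧸ N) : ℤ) : ℂ) * x g) + (fun g : G => ((a (g : G ⧸ N) : ℤ) : ℂ) * y g) := by
        funext g
        simp only [Pi.add_apply]
        ring
      rw [h2]
      exact add_mem hx hy
    · intro x _ hx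
      have h2 : (fun g : G => ((a (g : G ⧸ N) : ℤ) : ℂ) * (-x) g) =
          -(fun g : G => ((a (g : G ⧸ N) : ℤ) : ℂ) * x g) := by
        funext g
        simp
      rw [h2]
      exact neg_mem hx
  exact key f hf

/-- virtual characters are locally constant -/
lemma loc_const {f : G → ℂ} (hf : f ∈ VC (G := G) (fun _ => True)) :
    ∃ U : Subgroup G, IsOpen (U : Set G) ∧ ∀ g, ∀ u ∈ U, f (g * u) = f g := by
  unfold VC at hf
  refine AddSubgroup.closure_induction (p := fun x _ => ∃ U : Subgroup G, IsOpen (U : Set G) ∧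
    ∀ g, ∀ u ∈ U, x (g * u) = x g) ?_ ?_ ?_ ?_ hf
  · rintro x ⟨K, ψ, hK, -, ⟨V, hV, hψV⟩, rfl⟩
    obtain ⟨U, hUn, hU, hUK⟩ := Pool.Agent.R386.RP.exists_normal (U := K ⊓ V) (hK.inter hV)
    refine ⟨U, hU, fun g u hu => ?_⟩
    unfold up
    refine finsum_congr fun y => ?_
    have h1 : (y.out : G)⁻¹ * u * y.out ∈ U := by
      have := hUn.conj_mem u hu (y.out)⁻¹
      simpa using this
    have h2 := hUK h1
    have e : (y.out : G)⁻¹ * (g * u) * y.out = (y.out⁻¹ * g * y.out) * (y.out⁻¹ * u * y.out) := by group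
    rw [e]
    by_cases h : (y.out : G)⁻¹ * g * y.out ∈ K
    · rw [Pool.Agent.R386.RP.ex_of_mem ψ h, Pool.Agent.R386.RP.ex_of_mem ψ (K.mul_mem h h2.1)]
      have h3 : (⟨(y.out⁻¹ * g * y.out) * (y.out⁻¹ * u * y.out), K.mul_mem h h2.1⟩ : K) =
          ⟨_, h⟩ * ⟨_, h2.1⟩ := rfl
      rw [h3, map_mul, hψV ⟨_, h2.1⟩ h2.2, mul_one]
    · rw [Pool.Agent.R386.RP.ex_of_not_mem ψ h, Pool.Agent.R386.RP.ex_of_not_mem ψ
        (fun h3 => h ((K.mul_mem_cancel_right h2.1).1 h3))]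
  · exact ⟨⊤, isOpen_univ, fun _ _ _ => rfl⟩
  · rintro x y _ _ ⟨U, hU, h1⟩ ⟨V, hV, h2⟩
    refine ⟨U ⊓ V, hU.inter hV, fun g u hu => ?_⟩
    rw [Pi.add_apply, Pi.add_apply, h1 g u hu.1, h2 g u hu.2]
  · rintro x _ ⟨U, hU, h1⟩
    refine ⟨U, hU, fun g u hu => ?_⟩
    rw [Pi.neg_apply, Pi.neg_apply, h1 g u hu]

end

end Pool.Agent.R409.TC
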