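import Pool.Agent.R409.TC.Core

/-!
# Virtual Artin characters of `ℚ` and additive functions
-/

set_option autoImplicit false
set_option linter.unusedSectionVars false

namespace Pool.Agent.R409.TC

open Pool.Agent.R386.RP (AbsGal SubField IsComplexConj ex ind Opn)

lemma one_not_cc : ¬ IsComplexConj (1 : AbsGal ℚ) := by
  rintro ⟨ι, hι⟩
  obtain ⟨j, hj⟩ := IsAlgClosed.exists_pow_nat_eq (-1 : AlgebraicClosure ℚ) two_pos
  have h1 : (ι j) ^ 2 = -1 := by rw [← map_pow, hj, map_neg, map_one]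
  have h2 : (starRingEnd ℂ) (ι j) = ι j := (hι j).symm
  have h3 : (ι j).im = 0 := Complex.conj_eq_iff_im.1 h2
  have h4 := congrArg Complex.re h1
  rw [pow_two, Complex.mul_re, h3] at h4
  simp at h4
  nlinarith [mul_self_nonneg (ι j).re]

lemma exists_cc : ∃ c : AbsGal ℚ, IsComplexConj c := by
  obtain ⟨ι, -⟩ := Pool.Agent.R386.RP.ext_emb (k := ℚ) ⊥ (A := ℂ)
    ((algebraMap ℚ ℂ).comp (IntermediateField.botEquiv ℚ (AlgebraicClosure ℚ)).toRingEquiv.toRingHom)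
  obtain ⟨c, hc⟩ := Pool.Agent.R386.RP.exists_conj ι ((starRingEnd ℂ).comp ι)
  exact ⟨c, ι, fun z => (hc z).symm⟩

lemma cc_conj {c d : AbsGal ℚ} (hc : IsComplexConj c) (hd : IsComplexConj d) :
    ∃ g : AbsGal ℚ, d = g⁻¹ * c * g := by
  obtain ⟨ι0, h2⟩ := hc
  obtain ⟨ι, h4⟩ := hd
  obtain ⟨g, hg⟩ := Pool.Agent.R386.RP.exists_conj ι0 ι
  refine ⟨g, ?_⟩
  ext z
  apply ι0.injective
  change ι0 (d z) = ι0 (g⁻¹ (c (g z)))
  have h5 : ι0 (g (d z)) = ι0 (c (g z)) := by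
    rw [← hg, h4, hg, h2]
  have h6 : g (d z) = c (g z) := ι0.injective h5
  rw [← h6]
  congr 1
  change d z = (g⁻¹ * g) (d z)
  rw [inv_mul_cancel]
  rfl

lemma closed_cc : IsClosed {c : AbsGal ℚ | IsComplexConj c} := by
  obtain ⟨c0, hc0⟩ := exists_cc
  have e2 : {c : AbsGal ℚ | IsComplexConj c} = Set.range fun g : AbsGal ℚ => g⁻¹ * c0 * g := by
    ext c
    constructor
    · intro hc
      obtain ⟨g, hg⟩ := cc_conj hc0 hc
      exact ⟨g, hg.symm⟩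
    · rintro ⟨g, rfl⟩
      have := Pool.Agent.R386.RP.isCC_conj hc0 g⁻¹
      rwa [inv_inv] at this
  rw [e2]
  exact (isCompact_range ((continuous_id.inv.mul continuous_const).mul continuous_id)).isClosed

theorem core_rat (f : AbsGal ℚ → ℂ) (hf : f ∈ VC (G := AbsGal ℚ) (fun _ => True))
    (h0 : ∀ c, IsComplexConj c → f c = 0) :
    ∃ m : ℕ, m ≠ 0 ∧ m • f ∈ VC (G := AbsGal ℚ) (fun H => ∀ c, IsComplexConj c → c ∉ H) := by
  obtain ⟨U, hU, hfU⟩ := loc_const hf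
  have hlc : IsLocallyConstant f := by
    rw [IsLocallyConstant.iff_exists_open]
    intro x
    refine ⟨(fun y => x⁻¹ * y) ⁻¹' (U : Set (AbsGal ℚ)), hU.preimage (continuous_const.mul continuous_id),
      ?_, fun y hy => ?_⟩
    · change x⁻¹ * x ∈ U
      rw [inv_mul_cancel]
      exact one_mem _
    · have h1 := hfU x (x⁻¹ * y) hy
      rwa [mul_inv_cancel_left] at h1
  have hZ : IsClosed {g : AbsGal ℚ | f g ≠ 0} := by
    rw [← isOpen_compl_iff]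
    exact hlc {z : ℂ | ¬ z ≠ 0}
  obtain ⟨E, hE1, hE2, -, hE3⟩ := Pool.Agent.R386.TC.sep (K := ℚ) (Ω := AlgebraicClosure ℚ)
    {c : AbsGal ℚ | IsComplexConj c} closed_cc one_not_cc
    (fun c hc g hg => Pool.Agent.R386.RP.isCC_cent hc hg) {g : AbsGal ℚ | f g ≠ 0} hZ
    (fun g hg hc => hg (h0 g hc)) ⊥
  haveI := hE1
  have hEo : IsOpen ((E.fixingSubgroup : Subgroup (AbsGal ℚ)) : Set (AbsGal ℚ)) :=
    Pool.Agent.R386.RP.isOpen_of_nf E
  obtain ⟨N, hNn, hN, hNE⟩ := Pool.Agent.R386.RP.exists_normal hEo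
  haveI := hNn
  exact core_grp {c : AbsGal ℚ | IsComplexConj c}
    (fun c hc g => by
      have := Pool.Agent.R386.RP.isCC_conj hc g⁻¹
      rwa [inv_inv] at this) hN f hf (fun g hg n v hv => hE3 g hg n v (hNE hv))

/-- a homomorphism to `ℂˣ` is a virtual character -/
lemma lin_mem (χ : AbsGal ℚ →* ℂˣ) {U : Subgroup (AbsGal ℚ)} (hU : IsOpen (U : Set (AbsGal ℚ)))
    (hχ : ∀ g ∈ U, χ g = 1) : (fun g => ((χ g : ℂˣ) : ℂ)) ∈ VC (G := AbsGal ℚ) (fun _ => True) := by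
  have h1 : (fun g => ((χ g : ℂˣ) : ℂ)) = up (⊤ : Subgroup (AbsGal ℚ)) (ex (χ.comp (Subgroup.subtype ⊤))) := by
    funext g
    unfold up
    haveI : Subsingleton (AbsGal ℚ ⧸ (⊤ : Subgroup (AbsGal ℚ))) := QuotientGroup.subsingleton_quotient_top
    letI : Unique (AbsGal ℚ ⧸ (⊤ : Subgroup (AbsGal ℚ))) := uniqueOfSubsingleton ((1 : AbsGal ℚ) : _)
    rw [finsum_unique, Pool.Agent.R386.RP.ex_of_mem _ (Subgroup.mem_top _)]
    have h2 : ∀ y : AbsGal ℚ, χ (y⁻¹ * g * y) = χ g := fun y => by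
      rw [map_mul, map_mul, map_inv, mul_comm (χ y)⁻¹, inv_mul_cancel_right]
    exact congrArg Units.val (h2 _).symm
  rw [h1]
  exact AddSubgroup.subset_closure ⟨⊤, _, isOpen_univ, trivial, ⟨U, hU, fun h hh => hχ _ hh⟩, rfl⟩

/-- twists of virtual characters -/
lemma twist_mem (χ : AbsGal ℚ →* ℂˣ) {U : Subgroup (AbsGal ℚ)} (hU : IsOpen (U : Set (AbsGal ℚ)))
    (hχ : ∀ g ∈ U, χ g = 1) {f : AbsGal ℚ → ℂ} (hf : f ∈ VC (G := AbsGal ℚ) (fun _ => True)) :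
    (fun g => f g * ((χ g : ℂˣ) : ℂ)) ∈ VC (G := AbsGal ℚ) (fun _ => True) := by
  unfold VC at hf
  refine AddSubgroup.closure_induction (p := fun x _ => (fun g => x g * ((χ g : ℂˣ) : ℂ)) ∈
    VC (G := AbsGal ℚ) (fun _ => True)) ?_ ?_ ?_ ?_ hf
  · rintro x ⟨K, ψ, hK, -, hψ, rfl⟩
    haveI := fin_quot hK
    have h1 : (fun g => up K (ex ψ) g * ((χ g : ℂˣ) : ℂ)) = up K (ex (ψ * χ.comp K.subtype)) := by
      have h2 := up_mul (H := K) (fun g => ((χ g : ℂˣ) : ℂ)) (ex ψ) (fun x g => by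
        congr 1
        rw [map_mul, map_mul, map_inv, mul_comm (χ _)⁻¹, inv_mul_cancel_right])
      have h3 : (fun g => up K (ex ψ) g * ((χ g : ℂˣ) : ℂ)) =
          fun g => ((χ g : ℂˣ) : ℂ) * up K (ex ψ) g := by
        funext g
        rw [mul_comm]
      rw [h3, h2]
      congr 1
      funext g
      by_cases hg : g ∈ K
      · rw [Pool.Agent.R386.RP.ex_of_mem _ hg, Pool.Agent.R386.RP.ex_of_mem _ hg, MonoidHom.mul_apply,
          Units.val_mul, mul_comm]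
        rfl
      · rw [Pool.Agent.R386.RP.ex_of_not_mem _ hg, Pool.Agent.R386.RP.ex_of_not_mem _ hg, mul_zero]
    rw [h1]
    refine AddSubgroup.subset_closure ⟨K, _, hK, trivial, hψ.mul ⟨U, hU, fun h hh => hχ _ hh⟩, rfl⟩
  · have h2 : (fun g => (0 : AbsGal ℚ → ℂ) g * ((χ g : ℂˣ) : ℂ)) = 0 := by
      funext g
      simp
    rw [h2]
    exact zero_mem _
  · intro x y _ _ hx hy
    have h2 : (fun g => (x + y) g * ((χ g : ℂˣ) : ℂ)) =
        (fun g => x g * ((χ g : ℂˣ) : ℂ)) + (fun g => y g * ((χ g : ℂˣ) : ℂ)) := by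
      funext g
      simp only [Pi.add_apply]
      ring
    rw [h2]
    exact add_mem hx hy
  · intro x _ hx
    have h2 : (fun g => (-x) g * ((χ g : ℂˣ) : ℂ)) = -(fun g => x g * ((χ g : ℂˣ) : ℂ)) := by
      funext g
      simp
    rw [h2]
    exact neg_mem hx

/-- values at complex conjugations are integers -/
lemma int_val {f : AbsGal ℚ → ℂ} (hf : f ∈ VC (G := AbsGal ℚ) (fun _ => True)) {c : AbsGal ℚ}
    (hc : IsComplexConj c) : ∃ n : ℤ, f c = n := by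
  unfold VC at hf
  refine AddSubgroup.closure_induction (p := fun x _ => ∃ n : ℤ, x c = (n : ℂ)) ?_ ?_ ?_ ?_ hf
  · rintro x ⟨K, ψ, hK, -, hψ, rfl⟩
    haveI := fin_quot hK
    letI := Fintype.ofFinite (AbsGal ℚ ⧸ K)
    have h1 : ∀ y : AbsGal ℚ ⧸ K, ∃ n : ℤ, ex ψ ((y.out : AbsGal ℚ)⁻¹ * c * y.out) = n := by
      intro y
      by_cases h : (y.out : AbsGal ℚ)⁻¹ * c * y.out ∈ K
      · rw [Pool.Agent.R386.RP.ex_of_mem ψ h]
        have h2 : ψ ⟨_, h⟩ * ψ ⟨_, h⟩ = 1 := by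
          rw [← map_mul]
          have h3 : (⟨_, h⟩ : K) * ⟨_, h⟩ = 1 := by
            apply Subtype.ext
            change (y.out : AbsGal ℚ)⁻¹ * c * y.out * (y.out⁻¹ * c * y.out) = 1
            have e : (y.out : AbsGal ℚ)⁻¹ * c * y.out * (y.out⁻¹ * c * y.out) =
                y.out⁻¹ * (c * c) * y.out := by group
            rw [e, Pool.Agent.R386.RP.isCC_sq hc, mul_one, inv_mul_cancel]
          rw [h3, map_one]
        rcases Pool.Agent.R386.RP.pm_of_sq h2 with h3 | h3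
        · exact ⟨1, by rw [h3]; simp⟩
        · exact ⟨-1, by rw [h3]; simp⟩
      · exact ⟨0, by rw [Pool.Agent.R386.RP.ex_of_not_mem ψ h]; simp⟩
    choose n hn using h1
    refine ⟨∑ y, n y, ?_⟩
    unfold up
    rw [finsum_eq_sum_of_fintype]
    push_cast
    exact Finset.sum_congr rfl fun y _ => hn y
  · exact ⟨0, by simp⟩
  · rintro x y _ _ ⟨n, hn⟩ ⟨m, hm⟩
    exact ⟨n + m, by rw [Pi.add_apply, hn, hm]; push_cast; rfl⟩
  · rintro x _ ⟨n, hn⟩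
    exact ⟨-n, by rw [Pi.neg_apply, hn]; push_cast; rfl⟩

/-- virtual characters are class functions -/
lemma class_fun {f : AbsGal ℚ → ℂ} (hf : f ∈ VC (G := AbsGal ℚ) (fun _ => True)) (g x : AbsGal ℚ) :
    f (x⁻¹ * g * x) = f g := by
  unfold VC at hf
  refine AddSubgroup.closure_induction (p := fun f _ => f (x⁻¹ * g * x) = f g) ?_ ?_ ?_ ?_ hf
  · rintro f ⟨K, ψ, hK, -, hψ, rfl⟩
    unfold up
    rw [← finsum_comp_equiv (MulAction.toPerm x⁻¹ : Equiv.Perm (AbsGal ℚ ⧸ K))]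
    refine finsum_congr fun y => ?_
    have h2 : (x * (((MulAction.toPerm x⁻¹ : Equiv.Perm (AbsGal ℚ ⧸ K)) y).out) : AbsGal ℚ)⁻¹ *
        y.out ∈ K := by
      refine QuotientGroup.eq.1 ?_
      have h3 : ((y.out : AbsGal ℚ) : AbsGal ℚ ⧸ K) = y := Quotient.out_eq' y
      have h4 : (((((MulAction.toPerm x⁻¹ : Equiv.Perm (AbsGal ℚ ⧸ K)) y).out) : AbsGal ℚ) :
        AbsGal ℚ ⧸ K) = x⁻¹ • y := Quotient.out_eq' _
      rw [h3]
      change x • (((((MulAction.toPerm x⁻¹ : Equiv.Perm (AbsGal ℚ ⧸ K)) y).out) : AbsGal ℚ) :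
        AbsGal ℚ ⧸ K) = y
      rw [h4, smul_inv_smul]
    set z := ((MulAction.toPerm x⁻¹ : Equiv.Perm (AbsGal ℚ ⧸ K)) y).out with hz
    have h5 := Pool.Agent.R386.RP.ex_conj ψ h2 ((x * z)⁻¹ * g * (x * z))
    have e1 : z⁻¹ * (x⁻¹ * g * x) * z = (x * z)⁻¹ * g * (x * z) := by group
    rw [e1, ← h5]
    congr 1
    group
  · rfl
  · intro a b _ _ ha hb
    rw [Pi.add_apply, Pi.add_apply, ha, hb]
  · intro a _ ha
    rw [Pi.neg_apply, Pi.neg_apply, ha]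

lemma cc_val {f : AbsGal ℚ → ℂ} (hf : f ∈ VC (G := AbsGal ℚ) (fun _ => True)) {c d : AbsGal ℚ}
    (hc : IsComplexConj c) (hd : IsComplexConj d) : f d = f c := by
  obtain ⟨g, rfl⟩ := cc_conj hc hd
  exact class_fun hf c g

/-- an additive function on the virtual characters with continuation which vanishes for totally complex
fields -/
theorem defect (A : AddSubgroup (AbsGal ℚ → ℂ)) (u : (AbsGal ℚ → ℂ) → ℤ)
    (hadd : ∀ a ∈ A, a ∈ VC (G := AbsGal ℚ) (fun _ => True) → ∀ b ∈ A,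
      b ∈ VC (G := AbsGal ℚ) (fun _ => True) → u (a + b) = u a + u b)
    (h1A : (fun _ => (1 : ℂ)) ∈ A)
    (hyp : ∀ (H : Subgroup (AbsGal ℚ)) (ψ : H →* ℂˣ), IsOpen (H : Set (AbsGal ℚ)) →
      (∀ c, IsComplexConj c → c ∉ H) → Opn ψ → up H (ex ψ) ∈ A ∧ u (up H (ex ψ)) = 0)
    (f : AbsGal ℚ → ℂ) (hf : f ∈ VC (G := AbsGal ℚ) (fun _ => True)) (hfA : f ∈ A)
    (c : AbsGal ℚ) (hc : IsComplexConj c) : ((u f : ℤ) : ℂ) = f c * ((u (fun _ => 1) : ℤ) : ℂ) := by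
  let B : AddSubgroup (AbsGal ℚ → ℂ) := A ⊓ VC (G := AbsGal ℚ) (fun _ => True)
  -- `u` as a homomorphism on `B`
  have hB : ∀ a ∈ B, ∀ b ∈ B, u (a + b) = u a + u b := fun a ha b hb => hadd a ha.1 ha.2 b hb.1 hb.2
  have hu0 : u 0 = 0 := by
    have := hB 0 (zero_mem _) 0 (zero_mem _)
    rw [add_zero] at this
    linarith
  let v : B →+ ℤ := { toFun := fun b => u b.1, map_zero' := hu0, map_add' := fun a b => hB _ a.2 _ b.2 }
  have hv : ∀ (b : AbsGal ℚ → ℂ) (hb : b ∈ B), u b = v ⟨b, hb⟩ := fun _ _ => rfl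
  obtain ⟨n, hn⟩ := int_val hf hc
  have h1V : (fun _ => (1 : ℂ)) ∈ VC (G := AbsGal ℚ) (fun _ => True) := by
    have := lin_mem 1 (U := ⊤) isOpen_univ (fun _ _ => rfl)
    simpa using this
  have h1B : (fun _ => (1 : ℂ)) ∈ B := ⟨h1A, h1V⟩
  have hfB : f ∈ B := ⟨hfA, hf⟩
  let b : B := ⟨f, hfB⟩ - n • ⟨fun _ => 1, h1B⟩
  have hb0 : ∀ d, IsComplexConj d → b.1 d = 0 := by
    intro d hd
    change f d - (n • (fun _ => (1 : ℂ)) : AbsGal ℚ → ℂ) d = 0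
    rw [cc_val hf hc hd, hn, Pi.smul_apply, zsmul_eq_mul, mul_one, sub_self]
  obtain ⟨m, hm, hmem⟩ := core_rat b.1 b.2.2 hb0
  have hvan : ∀ x ∈ VC (G := AbsGal ℚ) (fun H => ∀ c, IsComplexConj c → c ∉ H), ∃ hx : x ∈ B, v ⟨x, hx⟩ = 0 := by
    intro x hx
    unfold VC at hx
    refine AddSubgroup.closure_induction (p := fun x _ => ∃ hx : x ∈ B, v ⟨x, hx⟩ = 0) ?_ ?_ ?_ ?_ hx
    · rintro x ⟨H, ψ, hH, hHc, hψ, rfl⟩
      obtain ⟨h2, h3⟩ := hyp H ψ hH hHc hψ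
      exact ⟨⟨h2, AddSubgroup.subset_closure ⟨H, ψ, hH, trivial, hψ, rfl⟩⟩, h3⟩
    · exact ⟨zero_mem _, hu0⟩
    · rintro x y _ _ ⟨hx, hx0⟩ ⟨hy, hy0⟩
      refine ⟨add_mem hx hy, ?_⟩
      have : v (⟨x, hx⟩ + ⟨y, hy⟩) = v ⟨x, hx⟩ + v ⟨y, hy⟩ := map_add _ _ _
      rw [hx0, hy0, add_zero] at this
      exact this
    · rintro x _ ⟨hx, hx0⟩
      refine ⟨neg_mem hx, ?_⟩
      have : v (-⟨x, hx⟩) = - v ⟨x, hx⟩ := map_neg _ _
      rw [hx0, neg_zero] at this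
      exact this
  obtain ⟨h4, h5⟩ := hvan _ hmem
  have h6 : v (m • b) = 0 := h5
  rw [map_nsmul, nsmul_eq_mul] at h6
  have h7 : v b = 0 := (mul_eq_zero.1 h6).resolve_left (by exact_mod_cast hm)
  have h8 : v b = v ⟨f, hfB⟩ - n • v ⟨fun _ => 1, h1B⟩ := by
    change v (⟨f, hfB⟩ - n • ⟨fun _ => 1, h1B⟩) = _
    rw [map_sub, map_zsmul]
  rw [h7] at h8
  have h9 : u f = n * u (fun _ => 1) := by
    rw [hv f hfB, hv _ h1B]
    have : v ⟨f, hfB⟩ = n • v ⟨fun _ => 1, h1B⟩ := (sub_eq_zero.1 h8.symm)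
    rw [this, smul_eq_mul]
  rw [h9, hn]
  push_cast
  rfl

end Pool.Agent.R409.TC
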